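import Pool.Agent.N513.CE.Stm2

/-!
# Project CE: closure properties of the elements of odd order (OCL)
-/

set_option autoImplicit false

namespace Pool.Agent.N284.CE

open Pool.Agent.N513.CE
open Pool.Agent.N303.KS (ct ct_mono ct_le_add ct_perm)

variable {P : Type} [Group P]

lemma Apx_mono {A B : Finset P} {δ δ' : ℝ} {V Q : Type} [Fintype V] [Group Q]
    {σ : P → Equiv.Perm V} {f : V → P → Q} {Bad : V → Prop} (h : Apx A B δ σ f Bad)
    (hδ : δ ≤ δ') : Apx A B δ' σ f Bad :=
  ⟨h.1.trans (mul_le_mul_of_nonneg_right hδ (Nat.cast_nonneg _)), h.2⟩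

lemma one_of_good {A : Finset P} {Q : Type} [Group Q] {f : P → Q}
    (h : ∀ l ∈ A, ∀ l' ∈ A, l * l' ∈ A → f (l * l') = f l * f l') (h1 : (1 : P) ∈ A) :
    f 1 = 1 := by
  have h2 := h 1 h1 1 h1 (by rwa [one_mul])
  rw [one_mul] at h2
  exact (mul_eq_left.1 h2.symm)

lemma odd_mul {Q : Type} [Group Q] {a b : Q} (hc : a * b = b * a)
    (ha : ¬ Even (orderOf a)) (hb : ¬ Even (orderOf b)) : ¬ Even (orderOf (a * b)) := by
  have hc' : Commute a b := hc
  have h1 := hc'.orderOf_mul_dvd_lcm
  rw [Nat.not_even_iff_odd] at ha hb ⊢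
  have h2 : Odd (Nat.lcm (orderOf a) (orderOf b)) :=
    (ha.mul hb).of_dvd_nat (Nat.lcm_dvd_mul _ _)
  exact h2.of_dvd_nat h1

theorem t_OCL : S_OCL := by
  classical
  intro P _ C hC
  refine ⟨?_, ?_, ?_, ?_⟩
  · intro ε hε
    refine ⟨{1}, ∅, ε, hε, ?_, ?_⟩
    · intro x hx
      rw [Finset.mem_singleton] at hx
      rw [hx]
      exact C.one_mem
    · intro A' B' hA hB V Q _ _ _ σ f Bad h
      refine (ct_mono fun x hx => ?_).trans h.1
      by_contra hb
      have h1 := one_of_good (h.2 x hb).1 (hA (Finset.mem_singleton_self 1))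
      rw [h1, orderOf_one] at hx
      exact absurd hx (by decide)
  · intro l hl l' hl' o1 o2 ε hε
    obtain ⟨A1, B1, δ1, hδ1, hA1, h1⟩ := o1 (ε / 4) (by linarith)
    obtain ⟨A2, B2, δ2, hδ2, hA2, h2⟩ := o2 (ε / 4) (by linarith)
    refine ⟨A1 ∪ A2 ∪ {l, l', l * l'}, B1 ∪ B2, min (min δ1 δ2) (ε / 4),
      lt_min (lt_min hδ1 hδ2) (by linarith), ?_, ?_⟩
    · intro x hx
      rw [Finset.mem_union, Finset.mem_union] at hx
      rcases hx with (hx | hx) | hx
      · exact hA1 x hx
      · exact hA2 x hx
      · simp only [Finset.mem_insert, Finset.mem_singleton] at hx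
        rcases hx with rfl | rfl | rfl
        · exact hl
        · exact hl'
        · exact C.mul_mem hl hl'
    · intro A' B' hA hB V Q _ _ _ σ f Bad h
      have g1 := h1 A' B' (fun x hx => hA (Finset.mem_union_left _ (Finset.mem_union_left _ hx)))
        (fun x hx => hB (Finset.mem_union_left _ hx)) V Q σ f Bad
        (Apx_mono h ((min_le_left _ _).trans (min_le_left _ _)))
      have g2 := h2 A' B' (fun x hx => hA (Finset.mem_union_left _ (Finset.mem_union_right _ hx)))
        (fun x hx => hB (Finset.mem_union_right _ hx)) V Q σ f Bad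
        (Apx_mono h ((min_le_left _ _).trans (min_le_right _ _)))
      have g3 := (Apx_mono h (min_le_right _ _)).1
      have m1 : l ∈ A' := hA (Finset.mem_union_right _ (by simp))
      have m2 : l' ∈ A' := hA (Finset.mem_union_right _ (by simp))
      have m3 : l * l' ∈ A' := hA (Finset.mem_union_right _ (by simp))
      have g4 : ct (fun x => Even (orderOf (f x (l * l')))) ≤
          ct Bad + ct (fun x => Even (orderOf (f x l)) ∨ Even (orderOf (f x l'))) := by
        refine ct_le_add fun x hx => ?_
        by_contra hcon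
        rw [not_or, not_or] at hcon
        obtain ⟨hb, ha, hb'⟩ := hcon
        have e1 := (h.2 x hb).1 l m1 l' m2 m3
        have e2 := (h.2 x hb).1 l' m2 l m1 (by rw [hC l' hl' l hl]; exact m3)
        rw [hC l' hl' l hl, e1] at e2
        rw [e1] at hx
        exact odd_mul e2 ha hb' hx
      have g5 : ct (fun x => Even (orderOf (f x l)) ∨ Even (orderOf (f x l'))) ≤
          ct (fun x => Even (orderOf (f x l))) + ct (fun x => Even (orderOf (f x l'))) :=
        ct_le_add fun x hx => hx
      have hV : (0 : ℝ) ≤ ε * Fintype.card V := by positivity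
      linarith
  · intro l hl o1 ε hε
    obtain ⟨A1, B1, δ1, hδ1, hA1, h1⟩ := o1 (ε / 2) (by linarith)
    refine ⟨A1 ∪ {1, l, l⁻¹}, B1, min δ1 (ε / 2), lt_min hδ1 (by linarith), ?_, ?_⟩
    · intro x hx
      rw [Finset.mem_union] at hx
      rcases hx with hx | hx
      · exact hA1 x hx
      · simp only [Finset.mem_insert, Finset.mem_singleton] at hx
        rcases hx with rfl | rfl | rfl
        · exact C.one_mem
        · exact hl
        · exact C.inv_mem hl
    · intro A' B' hA hB V Q _ _ _ σ f Bad h
      have g1 := h1 A' B' (fun x hx => hA (Finset.mem_union_left _ hx)) hB V Q σ f Bad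
        (Apx_mono h (min_le_left _ _))
      have g3 := (Apx_mono h (min_le_right _ _)).1
      have m0 : (1 : P) ∈ A' := hA (Finset.mem_union_right _ (by simp))
      have m1 : l ∈ A' := hA (Finset.mem_union_right _ (by simp))
      have m2 : l⁻¹ ∈ A' := hA (Finset.mem_union_right _ (by simp))
      have g4 : ct (fun x => Even (orderOf (f x l⁻¹))) ≤
          ct Bad + ct (fun x => Even (orderOf (f x l))) := by
        refine ct_le_add fun x hx => ?_
        by_cases hb : Bad x
        · exact Or.inl hb
        · right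
          have e1 := (h.2 x hb).1 l m1 l⁻¹ m2 (by rw [mul_inv_cancel]; exact m0)
          rw [mul_inv_cancel, one_of_good (h.2 x hb).1 m0] at e1
          have e2 : f x l⁻¹ = (f x l)⁻¹ := (inv_eq_of_mul_eq_one_right e1.symm).symm
          rw [e2, orderOf_inv] at hx
          exact hx
      linarith
  · intro l hl g hg o1 ε hε
    obtain ⟨A1, B1, δ1, hδ1, hA1, h1⟩ := o1 (ε / 2) (by linarith)
    refine ⟨A1 ∪ {l, g * l * g⁻¹}, B1 ∪ {g}, min δ1 (ε / 2), lt_min hδ1 (by linarith), ?_, ?_⟩
    · intro x hx
      rw [Finset.mem_union] at hx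
      rcases hx with hx | hx
      · exact hA1 x hx
      · simp only [Finset.mem_insert, Finset.mem_singleton] at hx
        rcases hx with rfl | rfl
        · exact hl
        · exact hg
    · intro A' B' hA hB V Q _ _ _ σ f Bad h
      have g1 := h1 A' B' (fun x hx => hA (Finset.mem_union_left _ hx))
        (fun x hx => hB (Finset.mem_union_left _ hx)) V Q σ f Bad
        (Apx_mono h (min_le_left _ _))
      have g3 := (Apx_mono h (min_le_right _ _)).1
      have m1 : l ∈ A' := hA (Finset.mem_union_right _ (by simp))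
      have m2 : g * l * g⁻¹ ∈ A' := hA (Finset.mem_union_right _ (by simp))
      have m3 : g ∈ B' := hB (Finset.mem_union_right _ (by simp))
      have g4 : ct (fun x => Even (orderOf (f (σ g x) (g * l * g⁻¹)))) ≤
          ct Bad + ct (fun x => Even (orderOf (f x l))) := by
        refine ct_le_add fun x hx => ?_
        by_cases hb : Bad x
        · exact Or.inl hb
        · right
          have e1 := (h.2 x hb).2.2.1 g m3 l m1 m2
          rw [e1] at hx
          exact hx
      rw [ct_perm (fun x => Even (orderOf (f x (g * l * g⁻¹)))) (σ g)] at g4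
      linarith

end Pool.Agent.N284.CE
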